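import Pool.Agent.P8H42.DecimLift
import Pool.Agent.P8H42.DecimCheck

/-!
# A squarefree ternary word with squarefree 5- and 7-decimations

The word is the fixed point of a cyclic uniform morphism of length `175 = 5 * 35 = 7 * 25`.
-/

set_option autoImplicit false

namespace Pool.Agent.Results.MP_d4aced_co.FiveSeven

open Pool.Agent.P8H42.Decim

/-- The infinite word `x` over the alphabet `{0, 1, 2}` is squarefree: no factor of `x` is of the
form `y y` with `y` nonempty, that is, for every position `i` and every length `p ≥ 1` the two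
consecutive blocks of length `p` starting at `i` and at `i + p` differ. -/
def SquareFree (x : ℕ → Fin 3) : Prop :=
  ∀ i p : ℕ, 0 < p → ∃ t, t < p ∧ x (i + t) ≠ x (i + p + t)

/-- The fixed point of the morphism, with letters in `ℕ`. -/
def W (n : ℕ) : ℕ :=
  if h : n = 0 then 0 else (digit C1 (n % 175) + W (n / 175)) % 3
termination_by n
decreasing_by omega

theorem W_lt (n : ℕ) : W n < 3 := by
  rw [W]
  split_ifs
  · norm_num
  · exact Nat.mod_lt _ (by norm_num)

theorem W_rec (n t : ℕ) (ht : t < 175) : W (175 * n + t) = (digit C1 t + W n) % 3 := by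
  by_cases h : 175 * n + t = 0
  · have h1 : n = 0 := by omega
    have h2 : t = 0 := by omega
    subst h1 h2
    rw [digit_zero]
    have := W_lt 0
    simp only [Nat.mul_zero, Nat.zero_add]
    omega
  · rw [W, dif_neg h]
    have e1 : (175 * n + t) % 175 = t := by omega
    have e2 : (175 * n + t) / 175 = n := by omega
    rw [e1, e2]

theorem W_five (n s : ℕ) (hs : s < 35) : W (5 * (35 * n + s)) = (digit C5 s + W n) % 3 := by
  have e : 5 * (35 * n + s) = 175 * n + 5 * s := by ring
  rw [e, W_rec n (5 * s) (by omega), dec5 s hs]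

theorem W_seven (n s : ℕ) (hs : s < 25) : W (7 * (25 * n + s)) = (digit C7 s + W n) % 3 := by
  have e : 7 * (25 * n + s) = 175 * n + 7 * s := by ring
  rw [e, W_rec n (7 * s) (by omega), dec7 s hs]

theorem SF_mono {x : ℕ → ℕ} {M M' : ℕ} (h : SF x M') (hM : M ≤ M') : SF x M :=
  fun i p hp hip => h i p hp (hip.trans hM)

theorem sf_pow (k : ℕ) : SF W (175 ^ k) := by
  induction k with
  | zero =>
    intro i p hp hip
    simp only [pow_zero] at hip
    omega
  | succ k ih =>
    rw [pow_succ, mul_comm]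
    exact lift (s := 28) (by norm_num) (by norm_num) (by norm_num) uniq1 short1 W_lt W_rec ih

theorem le_pow (n : ℕ) : n ≤ 175 ^ n := (Nat.lt_pow_self (by norm_num)).le

theorem sf_W (M : ℕ) : SF W M := SF_mono (sf_pow M) (le_pow M)

theorem sf_five (M : ℕ) : SF (fun n => W (5 * n)) M :=
  SF_mono (lift (L := 35) (s := 18) (by norm_num) (by norm_num) (by norm_num) uniq5 short5 W_lt
    W_five (sf_W M)) (by omega)

theorem sf_seven (M : ℕ) : SF (fun n => W (7 * n)) M :=
  SF_mono (lift (L := 25) (s := 13) (by norm_num) (by norm_num) (by norm_num) uniq7 short7 W_lt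
    W_seven (sf_W M)) (by omega)

theorem of_SF {x : ℕ → ℕ} (hx : ∀ n, x n < 3) (h : ∀ M, SF x M) :
    SquareFree (fun n => ⟨x n, hx n⟩) := by
  intro i p hp
  obtain ⟨t, ht, h1⟩ := h (i + 2 * p) i p hp le_rfl
  exact ⟨t, ht, fun h2 => h1 (Fin.mk.inj h2)⟩

/-- There are coprime integers `k, l ≥ 2` and an infinite squarefree word `w` over `{0, 1, 2}` such
that the decimations `(w_{k n})` and `(w_{l n})` are both squarefree. (The proof takes `k = 5` and
`l = 7`.) -/
theorem result : ∃ k l : ℕ, 2 ≤ k ∧ 2 ≤ l ∧ Nat.Coprime k l ∧ ∃ w : ℕ → Fin 3,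
    SquareFree w ∧ SquareFree (fun n => w (k * n)) ∧ SquareFree (fun n => w (l * n)) :=
  ⟨5, 7, by norm_num, by norm_num, by norm_num, fun n => ⟨W n, W_lt n⟩, of_SF W_lt sf_W,
    of_SF (fun n => W_lt (5 * n)) sf_five, of_SF (fun n => W_lt (7 * n)) sf_seven⟩

end Pool.Agent.Results.MP_d4aced_co.FiveSeven
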